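import Pool.Agent.H606.OS.Stm

/-!
# Task FJ of project OS (helper606): elementary properties of the kernels
-/

open MeasureTheory Filter Topology Finset
open Pool.Agent.H606.OS
open scoped FourierTransform

namespace Pool.Agent.H734.OS.FJ

lemma cont_fj : Continuous fj := by
  unfold fj
  refine intervalIntegral.continuous_parametric_intervalIntegral_of_continuous' ?_ _ _
  fun_prop

lemma cont_pp : Continuous pp := by
  unfold pp
  refine intervalIntegral.continuous_parametric_intervalIntegral_of_continuous' ?_ _ _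
  fun_prop

lemma fj_neg (x : ℝ) : fj (-x) = fj x := by
  unfold fj
  simp only [mul_neg, Real.cos_neg]

lemma pp_neg (x : ℝ) : pp (-x) = pp x := by
  unfold pp
  simp only [mul_neg, Real.cos_neg]

/-- The integral over `[-1, 1]` of a function of `|u|` times the cosine. -/
lemma even_int (p : ℝ → ℝ) (hp : Continuous p) (x : ℝ) :
    ∫ u in (-1 : ℝ)..1, p |u| * Real.cos (u * x) = 2 * ∫ u in (0 : ℝ)..1, p u * Real.cos (u * x) := by
  have hc : Continuous fun u : ℝ => p |u| * Real.cos (u * x) := by fun_prop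
  have h1 : ∫ u in (-1 : ℝ)..0, p |u| * Real.cos (u * x) =
      ∫ u in (0 : ℝ)..1, p |u| * Real.cos (u * x) := by
    have h2 := intervalIntegral.integral_comp_neg (a := (0 : ℝ)) (b := 1)
      (fun u : ℝ => p |u| * Real.cos (u * x))
    rw [neg_zero] at h2
    rw [← h2]
    refine intervalIntegral.integral_congr fun u _ => ?_
    simp only [abs_neg, neg_mul, Real.cos_neg]
  have h3 : ∫ u in (0 : ℝ)..1, p |u| * Real.cos (u * x) =
      ∫ u in (0 : ℝ)..1, p u * Real.cos (u * x) := by
    refine intervalIntegral.integral_congr fun u hu => ?_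
    rw [Set.uIcc_of_le zero_le_one] at hu
    simp only [abs_of_nonneg hu.1]
  rw [← intervalIntegral.integral_add_adjacent_intervals (b := (0 : ℝ))
    (hc.intervalIntegrable _ _) (hc.intervalIntegrable _ _), h1, h3]
  ring

lemma fj_eq {x : ℝ} (hx : x ≠ 0) : fj x = (2 - 2 * Real.cos x) / x ^ 2 := by
  have h0 : fj x = 2 * ∫ u in (0 : ℝ)..1, (1 - u) * Real.cos (u * x) :=
    even_int (fun u => 1 - u) (by fun_prop) x
  have h1 : ∫ u in (0 : ℝ)..1, (1 - u) * Real.cos (u * x) =
      ((1 - 1) * Real.sin (1 * x) / x - Real.cos (1 * x) / x ^ 2) -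
        ((1 - 0) * Real.sin (0 * x) / x - Real.cos (0 * x) / x ^ 2) := by
    refine intervalIntegral.integral_eq_sub_of_hasDerivAt
      (f := fun u => (1 - u) * Real.sin (u * x) / x - Real.cos (u * x) / x ^ 2) (fun u _ => ?_) ?_
    · have hl : HasDerivAt (fun u : ℝ => u * x) x u := by
        simpa using (hasDerivAt_id u).mul_const x
      have hs := hl.sin
      have hc := hl.cos
      have h1u : HasDerivAt (fun u : ℝ => 1 - u) (-1) u := by
        simpa using (hasDerivAt_id u).const_sub 1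
      have h := ((h1u.mul hs).div_const x).sub (hc.div_const (x ^ 2))
      refine h.congr_deriv ?_
      field_simp
      ring
    · exact (by fun_prop : Continuous fun u : ℝ => (1 - u) * Real.cos (u * x)).intervalIntegrable _ _
  rw [h0, h1]
  simp only [one_mul, zero_mul, Real.sin_zero, Real.cos_zero]
  field_simp
  ring

lemma pp_eq {x : ℝ} (hx : x ≠ 0) :
    pp x = 2 * (-Real.cos x / x ^ 2 + 4 * Real.sin x / x ^ 3 + 6 * (Real.cos x - 1) / x ^ 4) := by
  have h0 : pp x = 2 * ∫ u in (0 : ℝ)..1, (u ^ 2 * (1 - u)) * Real.cos (u * x) := by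
    have h := even_int (fun u => u ^ 2 * (1 - u)) (by fun_prop) x
    simp only [sq_abs] at h
    exact h
  have h1 : ∫ u in (0 : ℝ)..1, (u ^ 2 * (1 - u)) * Real.cos (u * x) =
      ((1 ^ 2 - 1 ^ 3) * Real.sin (1 * x) / x + (2 * 1 - 3 * 1 ^ 2) * Real.cos (1 * x) / x ^ 2 -
          (2 - 6 * 1) * Real.sin (1 * x) / x ^ 3 + 6 * Real.cos (1 * x) / x ^ 4) -
        ((0 ^ 2 - 0 ^ 3) * Real.sin (0 * x) / x + (2 * 0 - 3 * 0 ^ 2) * Real.cos (0 * x) / x ^ 2 -
          (2 - 6 * 0) * Real.sin (0 * x) / x ^ 3 + 6 * Real.cos (0 * x) / x ^ 4) := by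
    refine intervalIntegral.integral_eq_sub_of_hasDerivAt
      (f := fun u => (u ^ 2 - u ^ 3) * Real.sin (u * x) / x +
        (2 * u - 3 * u ^ 2) * Real.cos (u * x) / x ^ 2 -
          (2 - 6 * u) * Real.sin (u * x) / x ^ 3 + 6 * Real.cos (u * x) / x ^ 4)
      (fun u _ => ?_) ?_
    · have hl : HasDerivAt (fun u : ℝ => u * x) x u := by
        simpa using (hasDerivAt_id u).mul_const x
      have hs := hl.sin
      have hc := hl.cos
      have ha : HasDerivAt (fun u : ℝ => u ^ 2 - u ^ 3) (2 * u - 3 * u ^ 2) u := by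
        have h2 := (hasDerivAt_pow 2 u).sub (hasDerivAt_pow 3 u)
        refine h2.congr_deriv ?_
        norm_num
      have hb : HasDerivAt (fun u : ℝ => 2 * u - 3 * u ^ 2) (2 - 6 * u) u := by
        have h2 := ((hasDerivAt_id u).const_mul 2).sub ((hasDerivAt_pow 2 u).const_mul 3)
        refine h2.congr_deriv ?_
        norm_num
        ring
      have hd : HasDerivAt (fun u : ℝ => 2 - 6 * u) (-6) u := by
        have h2 := ((hasDerivAt_id u).const_mul 6).const_sub 2
        refine h2.congr_deriv ?_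
        norm_num
      have h := (((((ha.mul hs).div_const x).add ((hb.mul hc).div_const (x ^ 2))).sub
        ((hd.mul hs).div_const (x ^ 3))).add ((hc.const_mul 6).div_const (x ^ 4)))
      refine h.congr_deriv ?_
      field_simp
      ring
    · exact (by fun_prop : Continuous fun u : ℝ =>
        (u ^ 2 * (1 - u)) * Real.cos (u * x)).intervalIntegrable _ _
  rw [h0, h1]
  simp only [one_mul, zero_mul, Real.sin_zero, Real.cos_zero]
  field_simp
  ring

lemma abs_int_le (f : ℝ → ℝ) (hf : ∀ u, |u| ≤ 1 → |f u| ≤ 1) :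
    |∫ u in (-1 : ℝ)..1, f u| ≤ 2 := by
  have h := intervalIntegral.norm_integral_le_of_norm_le_const (a := (-1 : ℝ)) (b := 1) (C := 1)
    (f := f) (fun u hu => by
      rw [Set.uIoc_of_le (by norm_num)] at hu
      rw [Real.norm_eq_abs]
      exact hf u (abs_le.2 ⟨hu.1.le, hu.2⟩))
  rw [Real.norm_eq_abs] at h
  refine h.trans ?_
  norm_num

lemma abs_fj_le (x : ℝ) : |fj x| ≤ 2 := by
  refine abs_int_le _ fun u hu => ?_
  have h1 := abs_nonneg u
  rw [abs_mul, abs_of_nonneg (by linarith : (0 : ℝ) ≤ 1 - |u|)]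
  have h2 := Real.abs_cos_le_one (u * x)
  nlinarith [abs_nonneg (Real.cos (u * x))]

lemma abs_pp_le (x : ℝ) : |pp x| ≤ 2 := by
  refine abs_int_le _ fun u hu => ?_
  have h1 := abs_nonneg u
  rw [abs_mul, abs_mul, abs_of_nonneg (by linarith : (0 : ℝ) ≤ 1 - |u|), abs_of_nonneg (sq_nonneg u)]
  have h2 := Real.abs_cos_le_one (u * x)
  have h3 : u ^ 2 ≤ 1 := by
    rw [← sq_abs]
    nlinarith
  have h4 : u ^ 2 * (1 - |u|) ≤ 1 := by
    nlinarith [sq_nonneg u]
  have h5 : 0 ≤ u ^ 2 * (1 - |u|) := mul_nonneg (sq_nonneg u) (by linarith)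
  calc u ^ 2 * (1 - |u|) * |Real.cos (u * x)| ≤ u ^ 2 * (1 - |u|) * 1 :=
        mul_le_mul_of_nonneg_left h2 h5
    _ ≤ 1 := by linarith

lemma fj_nonneg (x : ℝ) : 0 ≤ fj x := by
  by_cases hx : x = 0
  · subst hx
    unfold fj
    refine intervalIntegral.integral_nonneg (by norm_num) fun u hu => ?_
    rw [mul_zero, Real.cos_zero, mul_one]
    have := abs_le.2 ⟨hu.1, hu.2⟩
    linarith
  · rw [fj_eq hx]
    have := Real.cos_le_one x
    exact div_nonneg (by linarith) (sq_nonneg x)

lemma sq_mul_fj_le (x : ℝ) : x ^ 2 * fj x ≤ 4 := by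
  by_cases hx : x = 0
  · subst hx
    norm_num
  · rw [fj_eq hx, mul_div_cancel₀ _ (pow_ne_zero 2 hx)]
    have := Real.neg_one_le_cos x
    linarith

lemma sq_mul_pp_le (x : ℝ) : x ^ 2 * |pp x| ≤ 16 := by
  by_cases hx : x = 0
  · subst hx
    norm_num
  · have hx2 : 0 < x ^ 2 := by positivity
    have h1 : x ^ 2 * pp x = 2 * (-Real.cos x + 4 * (Real.sin x / x) +
        6 * ((Real.cos x - 1) / x ^ 2)) := by
      rw [pp_eq hx]
      field_simp
    have h2 : |Real.sin x / x| ≤ 1 := by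
      rw [abs_div]
      exact div_le_one_of_le₀ (Real.abs_sin_le_abs) (abs_nonneg x)
    have h3 : |(Real.cos x - 1) / x ^ 2| ≤ 1 / 2 := by
      rw [abs_div, abs_of_pos hx2, div_le_iff₀ hx2, abs_sub_comm, abs_of_nonneg
        (by linarith [Real.cos_le_one x])]
      have := Real.one_sub_sq_div_two_le_cos (x := x)
      linarith
    have h4 := Real.abs_cos_le_one x
    have h5 : x ^ 2 * |pp x| = |x ^ 2 * pp x| := by
      rw [abs_mul, abs_of_pos hx2]
    rw [h5, h1, abs_le]
    rw [abs_le] at h2 h3 h4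
    constructor <;> linarith [h2.1, h2.2, h3.1, h3.2, h4.1, h4.2]

lemma le_ka {a C x : ℝ} (h : (1 + x ^ 2) * a ≤ C) : a ≤ C * ka x := by
  unfold ka
  have h1 : 0 < 1 + x ^ 2 := by positivity
  rw [mul_one_div, le_div_iff₀ h1]
  linarith

lemma fj_le (x : ℝ) : fj x ≤ 18 * ka x := by
  apply le_ka
  have h1 := (le_abs_self _).trans (abs_fj_le x)
  have h2 := sq_mul_fj_le x
  linarith

lemma pp_le (x : ℝ) : |pp x| ≤ 18 * ka x := by
  apply le_ka
  have h1 := abs_pp_le x
  have h2 := sq_mul_pp_le x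
  linarith

lemma integrable_ka : Integrable ka := by
  have h : ka = fun x : ℝ => (1 + x ^ 2)⁻¹ := by
    funext x
    rw [ka, one_div]
  rw [h]
  exact integrable_inv_one_add_sq

lemma integrable_fj : Integrable fj := by
  refine (integrable_ka.const_mul 18).mono' cont_fj.aestronglyMeasurable
    (Eventually.of_forall fun x => ?_)
  rw [Real.norm_eq_abs, abs_of_nonneg (fj_nonneg x)]
  exact fj_le x

/-- The tent function. -/
noncomputable def tn (u : ℝ) : ℝ := max 0 (1 - |u|)

lemma cont_tn : Continuous tn := by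
  unfold tn
  fun_prop

lemma tn_of_abs_le {u : ℝ} (h : |u| ≤ 1) : tn u = 1 - |u| := max_eq_right (by linarith)

lemma tn_of_le {u : ℝ} (h : 1 ≤ |u|) : tn u = 0 := max_eq_left (by linarith)

lemma tn_neg (u : ℝ) : tn (-u) = tn u := by
  unfold tn
  rw [abs_neg]

lemma tn_supp : HasCompactSupport tn := by
  refine HasCompactSupport.intro (isCompact_Icc (a := (-1 : ℝ)) (b := 1)) fun u hu => ?_
  apply tn_of_le
  by_contra hcon
  push Not at hcon
  exact hu ⟨(abs_lt.1 hcon).1.le, (abs_lt.1 hcon).2.le⟩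

lemma int_cos (x : ℝ) : ∫ u : ℝ, tn u * Real.cos (u * x) = fj x := by
  have h1 : ∫ u : ℝ, tn u * Real.cos (u * x) =
      ∫ u in Set.Ioc (-1 : ℝ) 1, tn u * Real.cos (u * x) := by
    symm
    refine setIntegral_eq_integral_of_forall_compl_eq_zero fun u hu => ?_
    rw [tn_of_le, zero_mul]
    by_contra hcon
    push Not at hcon
    exact hu ⟨(abs_lt.1 hcon).1, (abs_lt.1 hcon).2.le⟩
  rw [h1, fj, intervalIntegral.integral_of_le (by norm_num)]
  refine setIntegral_congr_fun measurableSet_Ioc fun u hu => ?_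
  rw [tn_of_abs_le (abs_le.2 ⟨hu.1.le, hu.2⟩)]

lemma int_sin (x : ℝ) : ∫ u : ℝ, tn u * Real.sin (u * x) = 0 := by
  have h1 := integral_neg_eq_self (fun u : ℝ => tn u * Real.sin (u * x)) volume
  have h2 : ∫ u : ℝ, tn (-u) * Real.sin (-u * x) = - ∫ u : ℝ, tn u * Real.sin (u * x) := by
    rw [← integral_neg]
    refine integral_congr_ae (Eventually.of_forall fun u => ?_)
    simp only [tn_neg, neg_mul, Real.sin_neg, mul_neg]
  rw [h2] at h1
  linarith

lemma fourier_tn (w : ℝ) :
    𝓕 (fun u : ℝ => ((tn u : ℝ) : ℂ)) w = ((fj (2 * Real.pi * w) : ℝ) : ℂ) := by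
  rw [Real.fourier_real_eq_integral_exp_smul]
  have h1 : ∀ v : ℝ, Complex.exp (↑(-2 * Real.pi * v * w) * Complex.I) • ((tn v : ℝ) : ℂ) =
      ((tn v * Real.cos (v * (2 * Real.pi * w)) : ℝ) : ℂ) -
        ((tn v * Real.sin (v * (2 * Real.pi * w)) : ℝ) : ℂ) * Complex.I := by
    intro v
    rw [Complex.exp_mul_I, ← Complex.ofReal_cos, ← Complex.ofReal_sin]
    have h2 : -2 * Real.pi * v * w = -(v * (2 * Real.pi * w)) := by ring
    rw [h2, Real.cos_neg, Real.sin_neg, smul_eq_mul]
    push_cast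
    ring
  rw [integral_congr_ae (Eventually.of_forall h1)]
  have hi1 : Integrable fun v : ℝ => tn v * Real.cos (v * (2 * Real.pi * w)) :=
    (by have := cont_tn; fun_prop : Continuous fun v : ℝ =>
      tn v * Real.cos (v * (2 * Real.pi * w))).integrable_of_hasCompactSupport tn_supp.mul_right
  have hi2 : Integrable fun v : ℝ => tn v * Real.sin (v * (2 * Real.pi * w)) :=
    (by have := cont_tn; fun_prop : Continuous fun v : ℝ =>
      tn v * Real.sin (v * (2 * Real.pi * w))).integrable_of_hasCompactSupport tn_supp.mul_right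
  rw [integral_sub hi1.ofReal (hi2.ofReal.mul_const _), integral_mul_const]
  rw [integral_complex_ofReal, integral_complex_ofReal, int_cos, int_sin]
  simp

lemma int_fj : ∫ x, fj x = 2 * Real.pi := by
  have hc : Continuous fun u : ℝ => ((tn u : ℝ) : ℂ) := Complex.continuous_ofReal.comp cont_tn
  have hi : Integrable fun u : ℝ => ((tn u : ℝ) : ℂ) :=
    (cont_tn.integrable_of_hasCompactSupport tn_supp).ofReal
  have hpi : 2 * Real.pi ≠ 0 := by positivity
  have hF : (𝓕 (fun u : ℝ => ((tn u : ℝ) : ℂ))) =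
      fun w : ℝ => ((fj (2 * Real.pi * w) : ℝ) : ℂ) := funext fourier_tn
  have hi2 : Integrable (𝓕 (fun u : ℝ => ((tn u : ℝ) : ℂ))) := by
    rw [hF]
    exact (integrable_fj.comp_mul_left' hpi).ofReal
  have h1 := congrFun (hc.fourierInv_fourier_eq hi hi2) 0
  rw [Real.fourierInv_eq', hF] at h1
  have h2 : tn 0 = 1 := by
    rw [tn_of_abs_le (by simp), abs_zero, sub_zero]
  simp only [inner_zero_right, mul_zero, Complex.ofReal_zero, zero_mul, Complex.exp_zero,
    one_smul, h2, Complex.ofReal_one] at h1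
  rw [integral_complex_ofReal, Measure.integral_comp_mul_left fj (2 * Real.pi)] at h1
  have h3 : |(2 * Real.pi)⁻¹| • ∫ y, fj y = 1 := by exact_mod_cast h1
  rw [abs_of_pos (by positivity), smul_eq_mul, inv_mul_eq_one₀ hpi] at h3
  exact h3.symm

theorem t_FJ : S_FJ :=
  ⟨18, by norm_num, cont_fj, fj_neg, fun x => ⟨fj_nonneg x, fj_le x⟩, integrable_fj, int_fj,
    cont_pp, pp_neg, pp_le⟩

end Pool.Agent.H734.OS.FJ
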